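import Pool.Agent.H715Z.BWMain

/-!
# `B(w) ≥ (1 - o(1)) w / log₂ w`

The notions are defined in `Pool.Agent.H715Z.BWDefs`.
-/

namespace Pool.Agent.Results.MP_0cf6e1_co.NearLinear

open H715Z.BW

/-- For every `ε > 0` and all large `w` there is a finite poset of width `w` all of whose Boolean
realizers have size at least `(1 - ε) w / log₂ w`. -/
theorem result (ε : ℝ) (hε : 0 < ε) : ∃ w₀ : ℕ, ∀ w ≥ w₀, ∃ (P : Type) (_ : Fintype P)
    (_ : PartialOrder P), HasWidth P w ∧
      ∀ d, HasBoolRealizer P d → (1 - ε) * w / Real.logb 2 w ≤ d :=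
  main ε hε

end Pool.Agent.Results.MP_0cf6e1_co.NearLinear
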